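import Pool.Agent.Helper45.PL.Defs

/-!
# Project PL (MP_e66f84_ag): the theorem at all finite pro-`ℓ` levels, `ℓ` odd, all `f`

THE FINAL LIST OF BLOCKS.  From `Helper45/PL/Defs.lean` only `IsPL`, `StmtPXL`, `TT`, `StmtTOWU`, `RtM`,
`TB`, `AgrT`, `StmtTRT`, `OthT` are used (and the blocks `StmtPXL`, `StmtTOWU`, `StmtTRT`).

`K0` is a fixed base, `N₁` a level abelian over `L0` (for the line: `YL`), all levels `N` contain it,
and their groups over `L0` are `ℓ`-groups.  The step from `N'` to `N`, where the group of `N` over `N'`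
is central of exponent `ℓ`: let `Φ₀` fix the place `Q'` of `N'` above a branch place, `ι` a generator of
the stabiliser of `Q'`; then `K' = KI K0 N' ι Φ₀` (elements of `N'` fixed by `ι` and all `Φ₀ g`) gives
the cyclic cover `N'` of `L0 E K'`, with the same `h`, `r`, `U`, and all actions which fix `Q'` are
actions over `K'`.  `N` is abelian of exponent `ℓ` over `L0 E K'`.  By `PD.StmtLVL` for `K'` for
100% of the `c` all `Φ σ` fix a place of `N` above one branch place `b'` of `L0 E K'`.  Let `ι'` be the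
inertia at `b'` in `N`: there are only finitely many possibilities for `Φ` on the field `F` of the
elements of `N` fixed by `ι'`, and for each of them `K'' = KI K' N ι' Φᵢ` gives the cyclic cover `N` of
`F`.  If it has no branch place fixed by `Φᵢ` then 0% of the `c` have an action over `K''`
(`StmtNONE`, the theorem for covers without rational branch point), else the place of `N` above this
branch place is fixed by all `Φ g`.
-/

set_option autoImplicit false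

namespace Pool.Agent.PRL

open VC IntermediateField NumberField IsDedekindDomain Pool.Agent.SC Pool.Agent.Helper91.Sect
open Filter Topology
open Pool.Agent.L (L0 MM)
open Pool.Agent.LN (Geo Act GoodCurve)
open Pool.Agent.M (Moves OverPl inL0)
open Pool.Agent.ML (HasMu BPl)
open Pool.Agent.TOW (Au AuE)
open Pool.Agent.PDL (HypL YL PoleAt IsRatBr IsBr numBr Third KB2)

noncomputable section

/-! ## General curves -/

section defs

variable {k : Type} (K0 : Type) {E U : Type} [Field k] [Field K0] [Field E] [Field U]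
  [Algebra k K0] [Algebra k E] [Algebra E U] [Algebra K0 U] [Algebra k U] [IsScalarTower k E U]
  [IsScalarTower k K0 U]

/-- the elements of `N` fixed by `ι` and by all `Φ g` (if these are automorphisms over `K0`) -/
def KI (N : IntermediateField E U) (ι : U ≃+* U) (Φ : (E ≃ₐ[k] E) →* (U ≃+* U)) :
    IntermediateField k U where
  carrier := {z | z ∈ N ∧ ∀ T : U ≃+* U, Au E K0 T → (T = ι ∨ ∃ g, T = Φ g) → T z = z}
  mul_mem' := fun {a b} ha hb => ⟨mul_mem ha.1 hb.1, fun T hT hm => by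
    rw [map_mul, ha.2 T hT hm, hb.2 T hT hm]⟩
  add_mem' := fun {a b} ha hb => ⟨add_mem ha.1 hb.1, fun T hT hm => by
    rw [map_add, ha.2 T hT hm, hb.2 T hT hm]⟩
  algebraMap_mem' := fun a => ⟨by
    rw [IsScalarTower.algebraMap_apply k E U]
    exact N.algebraMap_mem _, fun T hT _ => by
    rw [IsScalarTower.algebraMap_apply k K0 U]
    exact hT.fixK _⟩
  inv_mem' := fun a ha => ⟨inv_mem ha.1, fun T hT hm => by rw [map_inv₀, ha.2 T hT hm]⟩

/-- `ι` is an automorphism over `L0`, of order `ℓ` on `N`, which multiplies `r` by a primitive `ℓ`-th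
root of unity -/
structure Inr (E : Type) {U : Type} [Field E] [Field U] [Algebra E U] [Algebra K0 U] (ℓ : ℕ) (r : U)
    (N : IntermediateField E U) (ι : U ≃+* U) : Prop where
  auE : AuE E K0 ι
  mul : ∃ ζ : E, IsPrimitiveRoot ζ ℓ ∧ ι r = algebraMap E U ζ * r
  pow : ∀ z ∈ N, (ι ^ ℓ) z = z

/-- the group of `N` over `N'` has exponent `ℓ` and is central in the group over `L0` -/
structure Cen (E K0 : Type) {U : Type} [Field E] [Field K0] [Field U] [Algebra E U] [Algebra K0 U]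
    (ℓ : ℕ) (N' N : IntermediateField E U) : Prop where
  le : N' ≤ N
  cen : ∀ T a : U ≃+* U, AuE E K0 T → AuE E K0 a → (∀ z ∈ N', a z = z) →
    ∀ z ∈ N, T (a z) = a (T z)
  exp : ∀ a : U ≃+* U, AuE E K0 a → (∀ z ∈ N', a z = z) → ∀ z ∈ N, (a ^ ℓ) z = z

/-- `N` is abelian of exponent `ℓ` over `L0` -/
structure AbE (E K0 : Type) {U : Type} [Field E] [Field K0] [Field U] [Algebra E U] [Algebra K0 U]
    (ℓ : ℕ) (N : IntermediateField E U) : Prop where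
  comm : ∀ a b : U ≃+* U, AuE E K0 a → AuE E K0 b → ∀ z ∈ N, a (b z) = b (a z)
  exp : ∀ a : U ≃+* U, AuE E K0 a → ∀ z ∈ N, (a ^ ℓ) z = z

/-- there are at least four automorphisms of `N₁` over `M` -/
def Four (E K0 : Type) {U : Type} [Field E] [Field K0] [Field U] [Algebra E U] [Algebra K0 U]
    (r : U) (N₁ : IntermediateField E U) : Prop :=
  ∃ A : Finset (U ≃+* U), 4 ≤ A.card ∧ (∀ a ∈ A, AuE E K0 a ∧ a r = r) ∧
    ∀ a ∈ A, ∀ b ∈ A, a ≠ b → ∃ z ∈ N₁, a z ≠ b z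

/-- `Φ` fixes a place of `N` above a branch place -/
def FixB (E K0 : Type) {k U : Type} [Field k] [Field E] [Field K0] [Field U] [Algebra k E]
    [Algebra E U] [Algebra K0 U] (ℓ : ℕ) (h : K0) (N : IntermediateField E U)
    (Φ : (E ≃ₐ[k] E) →* (U ≃+* U)) : Prop :=
  ∃ (b : Place E (L0 E K0 (U := U))) (Q : Place E N), BPl ℓ h b ∧ OverPl b Q ∧
    ∀ g : E ≃ₐ[k] E, Moves (Φ g) N Q Q

end defs

/-- BLOCK KF (change of base; models `Helper79/TW/KG.lean`, `TOW.kG`): `KI` gives again a cyclic cover,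
with the same `h`, `r`, `U`, and `MM = N`. -/
def StmtKF : Prop :=
  ∀ (k K0 E U : Type) [Field k] [NumberField k] [Field K0] [Field E] [Field U] [Algebra k K0]
    [Algebra k E] [Algebra E U] [Algebra K0 U] [Algebra k U] [IsScalarTower k E U]
    [IsScalarTower k K0 U] (ℓ : ℕ) (h : K0) (r : U), ℓ.Prime → HasMu k ℓ → Geo k K0 E U ℓ h r →
    ∀ N : IntermediateField E U, TW.Lvl E K0 N → MM E K0 r ≤ N →
    ∀ ι : U ≃+* U, Inr K0 E ℓ r N ι →
    ∀ (c₀ : k) (Φ₀ : (E ≃ₐ[k] E) →* (U ≃+* U)), c₀ ≠ 0 → Act (K0 := K0) ℓ r c₀ Φ₀ →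
    (∀ g : E ≃ₐ[k] E, ∀ z ∈ N, Φ₀ g (ι z) = ι (Φ₀ g z)) →
    (∀ x : K0, algebraMap K0 U x ∈ KI K0 N ι Φ₀) ∧
    ∀ h' : KI K0 N ι Φ₀, (h' : U) = algebraMap K0 U h →
      Geo k (KI K0 N ι Φ₀) E U ℓ h' r ∧ MM E (KI K0 N ι Φ₀) r = N ∧
      ∀ z : U, z ∈ L0 E (KI K0 N ι Φ₀) (U := U) ↔ z ∈ N ∧ ι z = z

/-- BLOCK BRP (branch places): a place of a field `L` between `L0` and `U`, in the form
`L = L0 E K'`, `K'` with the same `h`, which is a branch place, lies over a branch place of `L0`; if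
`ι` is as in `StmtKF` and fixes the place `Q` of `N` over the branch place `b` of `L0 E K0`, then the place below
`Q` is a branch place of `L0 E K'`, and `Q` is the only place above it; and every branch place of
`L0 E K'` has a unique place of `N` above it, which is fixed by `ι`. -/
def StmtBRP : Prop :=
  ∀ (k K0 E U : Type) [Field k] [NumberField k] [Field K0] [Field E] [Field U] [Algebra k K0]
    [Algebra k E] [Algebra E U] [Algebra K0 U] [Algebra k U] [IsScalarTower k E U]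
    [IsScalarTower k K0 U] (ℓ : ℕ) (h : K0) (r : U), ℓ.Prime → HasMu k ℓ → Geo k K0 E U ℓ h r →
    ∀ N : IntermediateField E U, TW.Lvl E K0 N → MM E K0 r ≤ N →
    ∀ (K' : IntermediateField k U) (h' : K'), (h' : U) = algebraMap K0 U h →
    (∀ x : K0, algebraMap K0 U x ∈ K') → Geo k K' E U ℓ h' r → MM E K' r = N →
    ∀ ι : U ≃+* U, Inr K0 E ℓ r N ι → (∀ z : U, z ∈ L0 E K' (U := U) ↔ z ∈ N ∧ ι z = z) →
    (∀ b' : Place E (L0 E K' (U := U)), BPl ℓ h' b' →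
      (∃ b : Place E (L0 E K0 (U := U)), BPl ℓ h b ∧ OverPl b b') ∧
      ∃ Q : Place E N, OverPl b' Q ∧ Moves ι N Q Q ∧ ∀ Q₁ : Place E N, OverPl b' Q₁ → Q₁ = Q) ∧
    ∀ (b : Place E (L0 E K0 (U := U))) (Q : Place E N), BPl ℓ h b → OverPl b Q → Moves ι N Q Q →
      ∃ b' : Place E (L0 E K' (U := U)), BPl ℓ h' b' ∧ OverPl b' Q ∧ OverPl b b' ∧
        ∀ Q₁ : Place E N, OverPl b' Q₁ → Q₁ = Q

/-- BLOCK NONE (from project ML): no branch place is fixed by the action `Φ₀`, then the set of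
the `c` with an action is rare. -/
def StmtNONE : Prop :=
  ∀ (k K0 E U : Type) [Field k] [NumberField k] [Field K0] [Field E] [Field U] [Algebra k K0]
    [Algebra k E] [Algebra E U] [Algebra K0 U] [Algebra k U] [IsScalarTower k E U]
    [IsScalarTower k K0 U] (ℓ : ℕ) (h : K0) (r : U), ℓ.Prime → HasMu k ℓ → Geo k K0 E U ℓ h r →
    ∀ (c₀ : k) (Φ₀ : (E ≃ₐ[k] E) →* (U ≃+* U)), c₀ ≠ 0 → Act (K0 := K0) ℓ r c₀ Φ₀ →
    (∀ b : Place E (L0 E K0 (U := U)), BPl ℓ h b → ∃ g : E ≃ₐ[k] E, ¬ Moves (Φ₀ g) _ b b) →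
    PD.Rare ℓ (fun c : k => ∃ Φ : (E ≃ₐ[k] E) →* (U ≃+* U), Act (K0 := K0) ℓ r c Φ)

/-- BLOCK FCL (finite classes, common place; from `StmtPXL`, `StmtKF`, `StmtBRP`, `StmtNONE`; general
base): for almost all `c`, if all `Φ g` fix a place of the abelian level `N` above the branch place
`b` then there is a common fixed place of `N` above some branch place. -/
def StmtFCL : Prop :=
  ∀ (k K0 E U : Type) [Field k] [NumberField k] [Field K0] [Field E] [Field U] [Algebra k K0]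
    [Algebra k E] [Algebra E U] [Algebra K0 U] [Algebra k U] [IsScalarTower k E U]
    [IsScalarTower k K0 U] (ℓ : ℕ) (h : K0) (r : U), ℓ.Prime → HasMu k ℓ → Geo k K0 E U ℓ h r →
    ∀ N : IntermediateField E U, TW.Lvl E K0 N → MM E K0 r ≤ N → AbE E K0 ℓ N →
    ∀ b : Place E (L0 E K0 (U := U)), BPl ℓ h b →
    PD.Rare ℓ (fun c : k => ∃ Φ : (E ≃ₐ[k] E) →* (U ≃+* U), Act (K0 := K0) ℓ r c Φ ∧
      (∀ g : E ≃ₐ[k] E, ∃ Q : Place E N, OverPl b Q ∧ Moves (Φ g) N Q Q) ∧ ¬ FixB E K0 ℓ h N Φ)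

/-- BLOCK FIX (from `StmtPXL`; group theory: `PL13.card_fix_dvd`, `PL13.index_le_fix`): the places of
`N` above `b₀` which are fixed by `ι`. -/
def StmtFIX : Prop :=
  ∀ (k K0 E U : Type) [Field k] [NumberField k] [Field K0] [Field E] [Field U] [Algebra k K0]
    [Algebra k E] [Algebra E U] [Algebra K0 U] [Algebra k U] [IsScalarTower k E U]
    [IsScalarTower k K0 U] (ℓ : ℕ) (h : K0) (r : U), ℓ.Prime → HasMu k ℓ →
    Geo k K0 E U ℓ h r → ∀ N₁ N : IntermediateField E U, TW.Lvl E K0 N₁ → MM E K0 r ≤ N₁ →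
    AbE E K0 ℓ N₁ → Four E K0 r N₁ → TW.Lvl E K0 N → N₁ ≤ N → IsPL E K0 ℓ N →
    ∀ (b₀ : Place E (L0 E K0 (U := U))) (Q : Place E N), BPl ℓ h b₀ → OverPl b₀ Q →
    ∀ ι : U ≃+* U, Inr K0 E ℓ r N ι → Moves ι N Q Q →
    ℓ ∣ Nat.card {Q' : Place E N // OverPl b₀ Q' ∧ Moves ι N Q' Q'} ∧
    4 ≤ Nat.card {Q' : Place E N // OverPl b₀ Q' ∧ Moves ι N Q' Q'}

/-- BLOCK RSF (from `StmtFIX`, `StmtPXL`, `StmtKF`, `StmtBRP`): the set of the rational branch places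
over `KI K0 N ι Φ₀`. -/
def StmtRSF : Prop :=
  ∀ (k K0 E U : Type) [Field k] [NumberField k] [Field K0] [Field E] [Field U] [Algebra k K0]
    [Algebra k E] [Algebra E U] [Algebra K0 U] [Algebra k U] [IsScalarTower k E U]
    [IsScalarTower k K0 U] (ℓ : ℕ) (h : K0) (r : U), ℓ.Prime → ℓ ≠ 2 → HasMu k ℓ →
    Geo k K0 E U ℓ h r → ∀ N₁ N : IntermediateField E U, TW.Lvl E K0 N₁ → MM E K0 r ≤ N₁ →
    AbE E K0 ℓ N₁ → Four E K0 r N₁ → TW.Lvl E K0 N → N₁ ≤ N → IsPL E K0 ℓ N →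
    ∀ (b₀ : Place E (L0 E K0 (U := U))) (Q : Place E N), BPl ℓ h b₀ → OverPl b₀ Q →
    ∀ ι : U ≃+* U, Inr K0 E ℓ r N ι → Moves ι N Q Q →
    ∀ (c₀ : k) (Φ₀ : (E ≃ₐ[k] E) →* (U ≃+* U)), c₀ ≠ 0 → Act (K0 := K0) ℓ r c₀ Φ₀ →
    (∀ g : E ≃ₐ[k] E, ∀ z ∈ N, Φ₀ g (ι z) = ι (Φ₀ g z)) →
    (∀ g : E ≃ₐ[k] E, Moves (Φ₀ g) N Q Q) →
    ∀ h' : KI K0 N ι Φ₀, (h' : U) = algebraMap K0 U h →
    ∃ R' : Finset (Place E (L0 E (KI K0 N ι Φ₀) (U := U))), PD.RatSet (k := k) ℓ h' r R'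

/-- BLOCK STP (the step; from `PD.StmtLVL`, `StmtPXL`, `StmtKF`, `StmtBRP`, `StmtRSF`,
`StmtFCL`). -/
def StmtSTP : Prop :=
  ∀ (k K0 E U : Type) [Field k] [NumberField k] [Field K0] [Field E] [Field U] [Algebra k K0]
    [Algebra k E] [Algebra E U] [Algebra K0 U] [Algebra k U] [IsScalarTower k E U]
    [IsScalarTower k K0 U] (ℓ : ℕ) (h : K0) (r : U), ℓ.Prime → ℓ ≠ 2 → HasMu k ℓ →
    Geo k K0 E U ℓ h r →
    ∀ N₁ N' N : IntermediateField E U, TW.Lvl E K0 N₁ → MM E K0 r ≤ N₁ → AbE E K0 ℓ N₁ →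
    Four E K0 r N₁ → TW.Lvl E K0 N' → N₁ ≤ N' → TW.Lvl E K0 N → IsPL E K0 ℓ N → Cen E K0 ℓ N' N →
    ∀ (b₀ : Place E (L0 E K0 (U := U))) (Q' : Place E N'), BPl ℓ h b₀ → OverPl b₀ Q' →
    PD.Rare ℓ (fun c : k => ∃ Φ : (E ≃ₐ[k] E) →* (U ≃+* U), Act (K0 := K0) ℓ r c Φ ∧
      (∀ g : E ≃ₐ[k] E, Moves (Φ g) N' Q' Q') ∧ ¬ FixB E K0 ℓ h N Φ)

/-- BLOCK CHN (chain; group theory: `PL13.exists_fixed_order` or the centre of an `ℓ`-group, and
Artin's theorem): a smaller level `N'` such that the group of `N` over `N'` is central of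
exponent `ℓ`. -/
def StmtCHN : Prop :=
  ∀ (k K0 E U : Type) [Field k] [NumberField k] [Field K0] [Field E] [Field U] [Algebra k K0]
    [Algebra k E] [Algebra E U] [Algebra K0 U] [Algebra k U] [IsScalarTower k E U]
    [IsScalarTower k K0 U] (ℓ : ℕ) (h : K0) (r : U), ℓ.Prime → Geo k K0 E U ℓ h r →
    ∀ N₁ N : IntermediateField E U, TW.Lvl E K0 N₁ → MM E K0 r ≤ N₁ → TW.Lvl E K0 N →
    N₁ ≤ N → N₁ ≠ N → IsPL E K0 ℓ N →
    ∃ N' : IntermediateField E U, TW.Lvl E K0 N' ∧ N₁ ≤ N' ∧ N' ≠ N ∧ Cen E K0 ℓ N' N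

/-- BLOCK PLF (THE GENERAL THEOREM, by induction on the degree of `N` over `L0`; from `StmtCHN`,
`StmtPXL`, `StmtSTP`): from the level `N₁` to all levels. -/
def StmtPLF : Prop :=
  ∀ (k K0 E U : Type) [Field k] [NumberField k] [Field K0] [Field E] [Field U] [Algebra k K0]
    [Algebra k E] [Algebra E U] [Algebra K0 U] [Algebra k U] [IsScalarTower k E U]
    [IsScalarTower k K0 U] (ℓ : ℕ) (h : K0) (r : U), ℓ.Prime → ℓ ≠ 2 → HasMu k ℓ →
    Geo k K0 E U ℓ h r →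
    ∀ N₁ : IntermediateField E U, TW.Lvl E K0 N₁ → MM E K0 r ≤ N₁ → AbE E K0 ℓ N₁ →
    Four E K0 r N₁ →
    PD.Rare ℓ (fun c : k => ∃ Φ : (E ≃ₐ[k] E) →* (U ≃+* U), Act (K0 := K0) ℓ r c Φ ∧
      ¬ FixB E K0 ℓ h N₁ Φ) →
    ∀ N : IntermediateField E U, TW.Lvl E K0 N → N₁ ≤ N → IsPL E K0 ℓ N →
    PD.Rare ℓ (fun c : k => ∃ Φ : (E ≃ₐ[k] E) →* (U ≃+* U), Act (K0 := K0) ℓ r c Φ ∧
      ¬ FixB E K0 ℓ h N Φ)

/-! ## The line -/

/-- BLOCK RCH (the line): there are at least four automorphisms of `YL` over `M`; the poles of the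
coordinates at the rational branch points are at branch places; a branch place fixed by an action
is a rational branch point. -/
def StmtRCH : Prop :=
  ∀ (k K0 E U : Type) [Field k] [NumberField k] [Field K0] [Field E] [Field U] [Algebra k K0]
    [Algebra k E] [Algebra E U] [Algebra K0 U] [Algebra k U] [IsScalarTower k E U]
    [IsScalarTower k K0 U] (ℓ : ℕ) (x : K0) (f : Polynomial k) (r : U), ℓ.Prime → ℓ ≠ 2 →
    HasMu k ℓ → HypL E ℓ x f r → (∃ u : K0, IsRatBr ℓ x f u) → 3 ≤ numBr k E ℓ f →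
    (ℓ = 3 → 4 ≤ numBr k E ℓ f) →
    Four E K0 r (YL E K0 ℓ (U := U)) ∧
    (∀ u : K0, IsRatBr ℓ x f u → ∀ N : IntermediateField E U, L0 E K0 (U := U) ≤ N →
      ∀ Q : Place E N, PoleAt u Q →
      ∃ b : Place E (L0 E K0 (U := U)), BPl ℓ (Polynomial.aeval x f) b ∧ OverPl b Q) ∧
    ∀ (c : k) (Φ : (E ≃ₐ[k] E) →* (U ≃+* U)), c ≠ 0 → Act (K0 := K0) ℓ r c Φ →
      ∀ b : Place E (L0 E K0 (U := U)), BPl ℓ (Polynomial.aeval x f) b →
      (∀ g : E ≃ₐ[k] E, Moves (Φ g) _ b b) → ∃ u : K0, IsRatBr ℓ x f u ∧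
        ∀ N : IntermediateField E U, L0 E K0 (U := U) ≤ N → ∀ Q : Place E N, OverPl b Q →
          PoleAt u Q

/-- BLOCK ONEF (from `StmtPLF`, `StmtRCH`, `PDL.StmtYL1`, `PDL.StmtOneA`, `StmtTOWU`): the theorem for
the line, `ℓ` odd. -/
def StmtOneF : Prop :=
  ∀ (k K0 E U : Type) [Field k] [NumberField k] [Field K0] [Field E] [Field U] [Algebra k K0]
    [Algebra k E] [Algebra E U] [Algebra K0 U] [Algebra k U] [IsScalarTower k E U]
    [IsScalarTower k K0 U] (ℓ : ℕ) (x : K0) (f : Polynomial k) (r : U), ℓ.Prime → ℓ ≠ 2 →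
    HasMu k ℓ → HypL E ℓ x f r → (∃ u : K0, IsRatBr ℓ x f u) → 3 ≤ numBr k E ℓ f →
    (ℓ = 3 → 4 ≤ numBr k E ℓ f) → Third k E ℓ f → ∀ m : ℕ,
    PD.Rare ℓ (fun c : k => ∃ Φ : (E ≃ₐ[k] E) →* (U ≃+* U), Act (K0 := K0) ℓ r c Φ ∧
      ¬ ∃ u : K0, IsRatBr ℓ x f u ∧ ∃ Q : Place E (TT E K0 r ℓ m), PoleAt u Q ∧
        ∀ g : E ≃ₐ[k] E, Moves (Φ g) _ Q Q)

/-- BLOCK RAREF (from `StmtOneF`, `StmtTRT`, as `PDL.rareA_one`): the theorem for the line, in the
absolute form. -/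
def StmtRareF : Prop :=
  ∀ (k : Type) [Field k] [NumberField k] (ℓ : ℕ) (f : Polynomial k), ℓ.Prime → ℓ ≠ 2 →
    HasMu k ℓ → 3 ≤ numBr k (AlgebraicClosure k) ℓ f →
    (ℓ = 3 → 4 ≤ numBr k (AlgebraicClosure k) ℓ f) → Third k (AlgebraicClosure k) ℓ f →
    ∀ m : ℕ, PD.Rare ℓ (OthT f ℓ m)

end

end Pool.Agent.PRL
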