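import Pool.Agent.Helper13.ML.All
import Pool.Agent.Helper13.PLF.Defs
import Pool.Agent.Helper29.LN.UP

/-!
# Project PL, block NONE: no branch place is fixed, then almost no twist has an action (project ML)
-/

set_option autoImplicit false
set_option linter.unusedSectionVars false

namespace Pool.Agent.ML

open VC IntermediateField NumberField IsDedekindDomain Pool.Agent.SC
open Pool.Agent.L (Inert L0 MM SamePlace OverV)
open Pool.Agent.LN (Geo Act HasSec GoodCurve IsRam DecPt)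
open Pool.Agent.M (UR NN Moves OverPl inL0 lt_iff13 eq_iff13 eq_iffk13 exists_res13 exists_lift13
  mem_range13 inert_triv13 phi_mem59 phi_inv59 phi_inv59' map_UR99 exists_below13 frob_below13
  exists_M13)
open Pool.Agent.HG (Pr nm Ctx Gd)

/-- `exists_glE` from: no branch place is fixed by the action `Φ₀`. -/
theorem exists_glE' (hNR : StmtNR) (hFB : M.StmtFB) {k K0 E U : Type} [Field k] [NumberField k]
    [Field K0] [Field E] [Field U] [Algebra k K0]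
    [Algebra k E] [Algebra E U] [Algebra K0 U] [Algebra k U] [IsScalarTower k E U]
    [IsScalarTower k K0 U] {n ℓ : ℕ} (hn : 0 < n) (hℓ : ℓ.Prime) (hln : ℓ ∣ n) (hmu : HasMu k ℓ)
    {h : K0} {r : U} (G : Geo k K0 E U n h r)
    {c₀ : k} {Φ₀ : (E ≃ₐ[k] E) →* (U ≃+* U)} (hc₀ : c₀ ≠ 0) (hA₀ : Act (K0 := K0) n r c₀ Φ₀)
    (hN : ∀ b : Place E (L0 E K0 (U := U)), BPl ℓ h b → ∃ g : E ≃ₐ[k] E, ¬ Moves (Φ₀ g) _ b b) :
    ∃ (f : Polynomial k) (θ : Place E (L0 E K0 (U := U)) → E), GlE n ℓ h r f θ := by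
  classical
  have hclE : IsAlgClosed E := G.clE
  have halg : Algebra.IsAlgebraic k E := G.algE
  obtain ⟨hfin, hperm⟩ := hNR k K0 E U n ℓ h r hn hℓ hln hmu G
  obtain ⟨hp1, hp2, hp3, hp4, -⟩ := hperm c₀ Φ₀ hc₀ hA₀
  let B := {b : Place E (L0 E K0 (U := U)) // BPl ℓ h b}
  have hBf : Finite B := hfin.to_subtype
  choose act hact hact' using hp1
  have hBPl : ∀ (g : E ≃ₐ[k] E) (b : Place E (L0 E K0 (U := U))), BPl ℓ h b → BPl ℓ h (act g b) := by
    intro g b hb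
    unfold BPl at hb ⊢
    rw [← hp2 g b _ (hact g b)]
    exact hb
  -- the action
  have hL0 : ∀ (g : E ≃ₐ[k] E) (x : U), x ∈ L0 E K0 (U := U) → Φ₀ g x ∈ L0 E K0 (U := U) :=
    fun g x hx => phi_mem59 (toL hA₀) g hx
  have hone : ∀ b, act 1 b = b := by
    intro b
    refine (hact' 1 b b ?_).symm
    intro x hx hx'
    have h1 : Φ₀ 1 x = x := by rw [map_one]; rfl
    simp only [h1]
  have hmul : ∀ g g' b, act (g * g') b = act g (act g' b) := by
    intro g g' b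
    refine (hact' (g * g') b _ ?_).symm
    intro x hx hx'
    have h1 : Φ₀ (g * g') x = Φ₀ g (Φ₀ g' x) := by rw [map_mul]; rfl
    have h2 := hact g' b x hx (hL0 g' x hx)
    have h3 := hact g (act g' b) (Φ₀ g' x) (hL0 g' x hx) (hL0 g _ (hL0 g' x hx))
    rw [h2, h3]
    simp only [h1]
  let _ : MulAction (E ≃ₐ[k] E) B :=
    { smul := fun g b => ⟨act g b.1, hBPl g b.1 b.2⟩
      one_smul := fun b => Subtype.ext (hone b.1)
      mul_smul := fun g g' b => Subtype.ext (hmul g g' b.1) }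
  obtain ⟨f, θ0, hsep, hdeg, hinj, hroot, hθ⟩ := hFB k E B fun b => by
    obtain ⟨L, hL, hLb⟩ := hp4 b.1
    exact ⟨L, hL, fun g hg => Subtype.ext (hact' g b.1 b.1 (hLb g hg)).symm⟩
  have hf0 : f ≠ 0 := hsep.ne_zero
  let θ : Place E (L0 E K0 (U := U)) → E := fun b => if hb : BPl ℓ h b then θ0 ⟨b, hb⟩ else 0
  have hθe : ∀ b (hb : BPl ℓ h b), θ b = θ0 ⟨b, hb⟩ := fun b hb => dif_pos hb
  have hact0 : ∀ (g : E ≃ₐ[k] E) b b', BPl ℓ h b → BPl ℓ h b' →
      (Moves (Φ₀ g) _ b b' ↔ g (θ b) = θ b') := by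
    intro g b b' hb hb'
    rw [hθe b hb, hθe b' hb', hθ]
    constructor
    · intro h1
      have h2 := hact' g b b' h1
      congr 1
      exact Subtype.ext h2.symm
    · intro h1
      have h2 : act g b = b' := congrArg Subtype.val (hinj h1)
      rw [← h2]
      exact hact g b
  refine ⟨f, θ, hsep, ?_, ?_, ?_, ?_, ?_, ?_⟩
  · intro b hb _ a ha
    obtain ⟨σ, hσ⟩ := hN b hb
    apply hσ
    rw [hact0 σ b b hb hb, ha, AlgEquiv.commutes]
  · intro b hb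
    rw [hθe b hb]
    exact (hroot _).2 ⟨_, rfl⟩
  · intro x hx
    obtain ⟨b, hb⟩ := (hroot x).1 hx
    exact ⟨b.1, b.2, by rw [hθe b.1 b.2]; exact hb⟩
  · intro b b' hb hb' hbb
    rw [hθe b hb, hθe b' hb'] at hbb
    exact congrArg Subtype.val (hinj hbb)
  · intro c Φ hc hA g b b' hb hb'
    rw [← hp3 c Φ hc hA g b b']
    exact hact0 g b b' hb hb'
  · intro g b b' hb hb' hbb
    exact hp2 g b b' ((hact0 g b b' hb hb').2 hbb)

/-- the ratio of the classes with an action -/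
theorem rat_act {k K0 E U : Type} [Field k] [NumberField k]
    [Field K0] [Field E] [Field U] [Algebra k K0]
    [Algebra k E] [Algebra E U] [Algebra K0 U] [Algebra k U] [IsScalarTower k E U]
    [IsScalarTower k K0 U] {ℓ : ℕ} (hℓ : ℓ.Prime) (hmu : HasMu k ℓ)
    {h : K0} {r : U} (G : Geo k K0 E U ℓ h r)
    {c₀ : k} {Φ₀ : (E ≃ₐ[k] E) →* (U ≃+* U)} (hc₀ : c₀ ≠ 0) (hA₀ : Act (K0 := K0) ℓ r c₀ Φ₀)
    (hN : ∀ b : Place E (L0 E K0 (U := U)), BPl ℓ h b → ∃ g : E ≃ₐ[k] E, ¬ Moves (Φ₀ g) _ b b) :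
    Rat k ℓ (fun c : k => ∃ Φ : (E ≃ₐ[k] E) →* (U ≃+* U), Act (K0 := K0) ℓ r c Φ) := by
  have hLM : StmtLM := lm (Pool.Agent.L.stmtK2 Pool.Agent.L.stmtK1) Pool.Agent.LN.k3 k4M
    Pool.Agent.L.stmtAR
  have hFIN : StmtFIN := fin hLM M.fT hf Pool.Agent.LN.fr Pool.Agent.L.stmtAR
  have hINT : StmtINT := int hLM M.fT coc nR Pool.Agent.L.stmtAR
  have hQMD : StmtQMD := qMD (pI M.fT) w4 (qW M.fT (M.w1 M.fT)) w2
  obtain ⟨f, θ, Gl'⟩ := exists_glE' nR M.fb hℓ.pos hℓ (dvd_refl ℓ) hmu G hc₀ hA₀ hN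
  rcases le_or_gt f.natDegree 4 with hd | hd
  · exact caseA Pool.Agent.LN.fr hFIN z hINT Pool.Agent.Helper22.HG.der Pool.Agent.LN2.up
      Pool.Agent.LN2.cls Pool.Agent.LN.low Pool.Agent.LN.clo hℓ.pos hℓ (dvd_refl ℓ) hmu G Gl' hd
  · exact caseB hFIN z hINT lft (mU M.fT) hQMD M.w3 sel Pool.Agent.Helper21.HG.mert
      Pool.Agent.Helper21.HG.split Pool.Agent.Helper22.HG.der btl Pool.Agent.Helper88.HG.thue g4P
      g1 g2 g3 Pool.Agent.Helper99.ML.countL Pool.Agent.LN.up Pool.Agent.LN.low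
      Pool.Agent.LN.clo cLL hℓ.pos hℓ (dvd_refl ℓ) hmu G Gl' hd.le

end Pool.Agent.ML

namespace Pool.Agent.PRL

open VC IntermediateField NumberField IsDedekindDomain Pool.Agent.SC Pool.Agent.Helper91.Sect
open Filter Topology
open Pool.Agent.L (L0 MM)
open Pool.Agent.LN (Geo Act GoodCurve)
open Pool.Agent.M (Moves OverPl inL0)
open Pool.Agent.ML (HasMu BPl)

/-- a small ratio is rare -/
theorem rare_of_rat {k : Type} [Field k] [NumberField k] {ℓ : ℕ} (hℓ : ℓ.Prime) (P : k → Prop)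
    (hP : ML.Rat k ℓ P) : PD.Rare ℓ P := by
  obtain ⟨η, C, hη, hC, hbd⟩ := hP
  have hfin := LN.twists_finite (k := k) ℓ hℓ.two_le
  have hsub' : ∀ X : ℕ, LN.clsP ℓ P X ⊆ LN.clsP (k := k) ℓ (fun _ => True) X := by
    rintro X D ⟨c, h6, h7, -⟩
    exact ⟨c, h6, h7, trivial⟩
  obtain ⟨B, hB⟩ := Pool.Agent.HG.exists_B5 k
  obtain ⟨C₁, hC₁, hup⟩ := LN.cls_upper LN.up k ℓ hℓ.two_le (fun _ => True) ∅ ∅ Set.finite_empty
    0 0 B hB (fun _ _ _ v hv => absurd hv (Set.notMem_empty v)) (fun x _ => by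
      rw [zero_mul, sub_zero]
      exact Finset.sum_nonneg fun v _ => by positivity)
  have hlim : Tendsto (fun X : ℕ => Real.log (X : ℝ) ^ η) atTop atTop :=
    (tendsto_rpow_atTop hη).comp (Real.tendsto_log_atTop.comp tendsto_natCast_atTop_atTop)
  intro ε hε
  filter_upwards [hlim.eventually_ge_atTop (C * C₁ / ε), eventually_ge_atTop 3] with X hX hX3 T hT
    hTc
  have hl0 : 0 < Real.log X := Real.log_pos (by exact_mod_cast (by omega : 1 < X))
  have hlη : 0 < Real.log X ^ η := Real.rpow_pos_of_pos hl0 η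
  have h1 : (T.card : ℝ) ≤ Nat.card (LN.clsP (k := k) ℓ P X) := by
    exact_mod_cast LN.card_cls_ge hℓ.pos P X ((hfin X).subset (hsub' X)) T hT hTc
  have h2 := hbd X hX3
  have h3 := hup X hX3
  rw [sub_zero, mul_one] at h3
  obtain ⟨L, hL⟩ : ∃ L : ℝ, L = Real.log X ^ (((ℓ - 1 : ℕ) : ℝ) - 1) := ⟨_, rfl⟩
  rw [← hL] at h3 ⊢
  have hL0 : 0 ≤ L := by rw [hL]; exact Real.rpow_nonneg hl0.le _
  have h4 : C * C₁ ≤ ε * Real.log X ^ η := by
    rw [div_le_iff₀ hε] at hX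
    linarith
  refine h1.trans (h2.trans ?_)
  rw [div_le_iff₀ hlη]
  calc C * (Nat.card (LN.clsP (k := k) ℓ (fun _ => True) X) : ℝ) ≤ C * (C₁ * X * L) :=
        mul_le_mul_of_nonneg_left h3 hC.le
    _ = (C * C₁) * (X * L) := by ring
    _ ≤ (ε * Real.log X ^ η) * (X * L) :=
        mul_le_mul_of_nonneg_right h4 (mul_nonneg (Nat.cast_nonneg _) hL0)
    _ = ε * (X * L) * Real.log X ^ η := by ring

/-- BLOCK NONE. -/
theorem nONE : StmtNONE := by
  intro k K0 E U _ _ _ _ _ _ _ _ _ _ _ _ ℓ h r hℓ hmu G c₀ Φ₀ hc₀ hA₀ hN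
  exact rare_of_rat hℓ _ (ML.rat_act hℓ hmu G hc₀ hA₀ hN)

end Pool.Agent.PRL
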